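import Mathlib
import Pool.Agent.W181.WH.Stm

/-!
Translation and duality of the Givental functions (S_TRANS and S_DUAL of helper181's project WH).
-/

set_option autoImplicit false

open MeasureTheory Pool.Agent.W181.WH

namespace Pool.Agent.W293.WH

theorem sum_tl {n : ℕ} (α : Fin (n + 1) → ℂ) : ∑ i, tl α i = ∑ i : Fin n, α i.succ := by
  unfold tl
  exact Fintype.sum_equiv Fin.revPerm _ _ (fun i => rfl)

theorem Qk_add {n : ℕ} (a : ℂ) (x : Fin (n + 1) → ℝ) (t : Fin n → ℝ) (c : ℝ) :
    Qk a (fun i => x i + c) (fun i => t i + c) = Complex.exp ((c : ℂ) * a) * Qk a x t := by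
  unfold Qk
  have h1 : (∑ i : Fin (n + 1), (x i + c) - ∑ i : Fin n, (t i + c) : ℝ)
      = (∑ i, x i - ∑ i, t i) + c := by
    rw [Finset.sum_add_distrib, Finset.sum_add_distrib]
    simp only [Finset.sum_const, Finset.card_univ, Fintype.card_fin, nsmul_eq_mul]
    push_cast
    ring
  have h2 : ∀ k : Fin n, (Real.exp (2 * (x k.succ + c - (t k + c)))
      + Real.exp (2 * (t k + c - (x k.castSucc + c))))
      = (Real.exp (2 * (x k.succ - t k)) + Real.exp (2 * (t k - x k.castSucc))) := by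
    intro k
    congr 2 <;> ring_nf
  rw [h1]
  simp only [h2]
  rw [← mul_assoc, ← Complex.exp_add]
  congr 2
  push_cast
  ring

theorem t_trans : S_TRANS := by
  intro n
  induction n with
  | zero =>
    intro α x c
    simp [Psi]
  | succ n ih =>
    intro α x c
    show (∫ t : Fin n → ℝ, Qk (α 0) (fun i => x i + c) t * Psi n (tl α) t) =
      Complex.exp ((c : ℂ) * ∑ i, α i) * ∫ t : Fin n → ℝ, Qk (α 0) x t * Psi n (tl α) t
    rw [← integral_add_right_eq_self _ (fun _ : Fin n => c), ← integral_const_mul]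
    congr 1
    funext t
    have h1 := Qk_add (α 0) x t c
    have h2 := ih (tl α) t c
    have h3 : (t + fun _ : Fin n => c) = fun i => t i + c := rfl
    rw [h3, h1, h2, sum_tl, Fin.sum_univ_succ, mul_add, Complex.exp_add]
    ring

/-- the reversal of the coordinates together with the sign change preserves the measure -/
theorem integral_neg_rev {n : ℕ} (f : (Fin n → ℝ) → ℂ) :
    ∫ t : Fin n → ℝ, f (fun i => - t (Fin.rev i)) = ∫ t : Fin n → ℝ, f t := by
  have h1 := (volume_measurePreserving_piCongrLeft (fun _ : Fin n => ℝ)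
    (Fin.revPerm : Equiv.Perm (Fin n))).integral_comp' (fun t => f (-t))
  have h2 := integral_neg_eq_self f (volume : Measure (Fin n → ℝ))
  rw [← h2, ← h1]
  congr 1
  funext t
  congr 1
  funext i
  have h3 := Equiv.piCongrLeft_apply_apply (fun _ : Fin n => ℝ) (Fin.revPerm : Equiv.Perm (Fin n)) t
    (Fin.rev i)
  rw [Fin.revPerm_apply, Fin.rev_rev] at h3
  show - t (Fin.rev i) = - ((Equiv.piCongrLeft (fun _ : Fin n => ℝ) Fin.revPerm) t i)
  rw [h3]

theorem Qk_neg_rev {n : ℕ} (a : ℂ) (x : Fin (n + 1) → ℝ) (t : Fin n → ℝ) :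
    Qk a (fun i => - x (Fin.rev i)) (fun i => - t (Fin.rev i)) = Qk (-a) x t := by
  unfold Qk
  have h1 : (∑ i : Fin (n + 1), (- x (Fin.rev i)) - ∑ i : Fin n, (- t (Fin.rev i)) : ℝ)
      = -(∑ i, x i - ∑ i, t i) := by
    rw [Finset.sum_neg_distrib, Finset.sum_neg_distrib,
      Fintype.sum_equiv Fin.revPerm (fun i => x (Fin.rev i)) x (fun i => rfl),
      Fintype.sum_equiv Fin.revPerm (fun i => t (Fin.rev i)) t (fun i => rfl)]
    ring
  have h2 : (∑ k : Fin n, (Real.exp (2 * (- x (Fin.rev k.succ) - - t (Fin.rev k)))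
      + Real.exp (2 * (- t (Fin.rev k) - - x (Fin.rev k.castSucc)))))
      = ∑ k : Fin n, (Real.exp (2 * (x k.succ - t k)) + Real.exp (2 * (t k - x k.castSucc))) := by
    refine Fintype.sum_equiv Fin.revPerm _ _ (fun k => ?_)
    rw [Fin.revPerm_apply, Fin.rev_succ, Fin.rev_castSucc, add_comm]
    congr 2 <;> ring_nf
  rw [h1, h2]
  congr 2
  push_cast
  ring

theorem t_dual : S_DUAL := by
  intro n
  induction n with
  | zero =>
    intro α x
    simp [Psi]
  | succ n ih =>
    intro α x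
    show (∫ t : Fin n → ℝ, Qk (α 0) (fun i => - x (Fin.rev i)) t * Psi n (tl α) t) =
      ∫ t : Fin n → ℝ, Qk (- α 0) x t * Psi n (tl (fun i => - α i)) t
    rw [← integral_neg_rev]
    congr 1
    funext t
    rw [Qk_neg_rev, ih]
    rfl

end Pool.Agent.W293.WH

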